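import Mathlib
import Pool.Agent.Helper278.TPDefs
import Pool.Agent.Helper278.TPModel
import Pool.Agent.Helper278.TPHyp

set_option autoImplicit false

namespace Pool.Agent.Results.MP_baa3fb_lc.NotSimple

open Pool.Agent.Helper278 Pool.Agent.Helper278.TP

/-- The hyperfinite II₁ factor exists, and its complete continuous theory is not simple. More
generally the theory of a II₁ factor is never simple. -/
theorem result :
    (∃ R : TvN, IsHyperfiniteIIOneFactor R) ∧
      (∀ R : TvN, IsHyperfiniteIIOneFactor R → ¬ IsSimpleTheory R) ∧
        ∀ M : TvN, IsIIOneFactor M.N M.τ → ¬ IsSimpleTheory M :=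
  ⟨exists_hyperfinite, fun R hR => not_simple R hR.factor, not_simple⟩

end Pool.Agent.Results.MP_baa3fb_lc.NotSimple
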